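import Mathlib

namespace Pool.Agent.Results.MP_fff0e1_co.ExtremalOriented

/-- An oriented graph on the vertex set `V`: an arc relation without pairs of opposite arcs
(taking both vertices equal, this also excludes loops). -/
structure OrientedGraph (V : Type) where
  arc : V → V → Prop
  asymm : ∀ u v, arc u v → ¬ arc v u

/-- The out-degree of `v`. -/
noncomputable def OrientedGraph.outdeg {V : Type} (G : OrientedGraph V) (v : V) : ℕ :=
  Set.ncard {w | G.arc v w}

/-- The in-degree of `v`. -/
noncomputable def OrientedGraph.indeg {V : Type} (G : OrientedGraph V) (v : V) : ℕ :=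
  Set.ncard {w | G.arc w v}

/-- `f` is an `L(2,1)`-labeling of `G` with span `m`: labels lie in `{0, ..., m}`, the ends of an
arc get labels at distance at least `2`, and the ends of a directed path of length two get labels
at distance at least `1`. -/
def OrientedGraph.IsLabeling {V : Type} (G : OrientedGraph V) (m : ℕ) (f : V → ℕ) : Prop :=
  (∀ v, f v ≤ m) ∧
  (∀ u v, G.arc u v → (2 : ℤ) ≤ |(f u : ℤ) - (f v : ℤ)|) ∧
  (∀ u w v, G.arc u w → G.arc w v → (1 : ℤ) ≤ |(f u : ℤ) - (f v : ℤ)|)

/-- The least span of an `L(2,1)`-labeling of `G`. -/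
noncomputable def OrientedGraph.lambda21 {V : Type} (G : OrientedGraph V) : ℕ :=
  sInf {m : ℕ | ∃ f : V → ℕ, G.IsLabeling m f}

/-- Every finite oriented graph has an `L(2,1)`-labeling of some span. -/
lemma exists_labeling {V : Type} [Fintype V] (G : OrientedGraph V) :
    ∃ m : ℕ, ∃ f : V → ℕ, G.IsLabeling m f := by
  classical
  let e := Fintype.equivFin V
  refine ⟨2 * Fintype.card V, fun v => 2 * (e v : ℕ), ?_, ?_, ?_⟩
  · intro v
    have := (e v).2
    simp only
    omega
  · intro u v huv
    have hne : u ≠ v := by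
      rintro rfl
      exact G.asymm u u huv huv
    have hne' : (e u : ℕ) ≠ (e v : ℕ) := by
      intro h
      exact hne (e.injective (Fin.ext h))
    simp only
    rcases Nat.lt_or_gt_of_ne hne' with h | h
    · rw [le_abs]
      right
      push_cast
      omega
    · rw [le_abs]
      left
      push_cast
      omega
  · intro u w v huw hwv
    have hne : u ≠ v := by
      rintro rfl
      exact G.asymm u w huw hwv
    have hne' : (e u : ℕ) ≠ (e v : ℕ) := by
      intro h
      exact hne (e.injective (Fin.ext h))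
    simp only
    rcases Nat.lt_or_gt_of_ne hne' with h | h
    · rw [le_abs]
      right
      push_cast
      omega
    · rw [le_abs]
      left
      push_cast
      omega

/-- If `N` vertices are pairwise joined by directed paths of length two, the least span is at
least `N - 1`. -/
lemma card_le_lambda21 {V : Type} [Fintype V] (G : OrientedGraph V) {ι : Type} [Fintype ι]
    (p : ι → V) (hp : ∀ i j, i ≠ j → ∃ w, (G.arc (p i) w ∧ G.arc w (p j)) ∨
      (G.arc (p j) w ∧ G.arc w (p i))) :
    Fintype.card ι ≤ G.lambda21 + 1 := by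
  classical
  have hmem : G.lambda21 ∈ {m : ℕ | ∃ f : V → ℕ, G.IsLabeling m f} :=
    Nat.sInf_mem (exists_labeling G)
  obtain ⟨f, hle, -, h2⟩ := hmem
  have hinj : Function.Injective (fun i : ι => (⟨f (p i), Nat.lt_succ_of_le (hle (p i))⟩ :
      Fin (G.lambda21 + 1))) := by
    intro i j hij
    by_contra hne
    have hf : f (p i) = f (p j) := by simpa using hij
    obtain ⟨w, h | h⟩ := hp i j hne
    · have := h2 _ _ _ h.1 h.2
      rw [hf] at this
      simp at this
    · have := h2 _ _ _ h.1 h.2
      rw [hf] at this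
      simp at this
  have := Fintype.card_le_of_injective _ hinj
  simpa using this

/-- The residues `0, 1, ..., k - 1`. -/
def setA (k : ℕ) : Set (ZMod (2 * k ^ 2 + 1)) := {a | ∃ i : ℕ, i < k ∧ a = (i : ZMod _)}

/-- The residues `k, 2k, ..., k²`. -/
def setB (k : ℕ) : Set (ZMod (2 * k ^ 2 + 1)) :=
  {b | ∃ j : ℕ, j < k ∧ b = (((j + 1) * k : ℕ) : ZMod _)}

lemma natCast_inj {N : ℕ} [NeZero N] {a b : ℕ} (ha : a < N) (hb : b < N)
    (h : (a : ZMod N) = (b : ZMod N)) : a = b := by
  rw [ZMod.natCast_eq_natCast_iff'] at h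
  rwa [Nat.mod_eq_of_lt ha, Nat.mod_eq_of_lt hb] at h

lemma jk_lt {k j : ℕ} (hj : j < k) : (j + 1) * k < 2 * k ^ 2 + 1 := by
  have : (j + 1) * k ≤ k * k := Nat.mul_le_mul_right k hj
  nlinarith

lemma disj (k : ℕ) (x : ZMod (2 * k ^ 2 + 1)) (hA : x ∈ setA k) (hB : x ∈ setB k) : False := by
  obtain ⟨i, hi, rfl⟩ := hA
  obtain ⟨j, hj, h⟩ := hB
  have h1 : i < 2 * k ^ 2 + 1 := by nlinarith
  have := natCast_inj h1 (jk_lt hj) h
  have : k ≤ (j + 1) * k := Nat.le_mul_of_pos_left k (Nat.succ_pos j)
  omega

lemma ncard_setA (k : ℕ) : (setA k).ncard = k := by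
  have : setA k = (fun i : ℕ => (i : ZMod (2 * k ^ 2 + 1))) '' (Finset.range k : Set ℕ) := by
    ext x
    simp only [setA, Set.mem_setOf_eq, Set.mem_image, Finset.coe_range, Set.mem_Iio]
    constructor
    · rintro ⟨i, hi, rfl⟩
      exact ⟨i, hi, rfl⟩
    · rintro ⟨i, hi, rfl⟩
      exact ⟨i, hi, rfl⟩
  rw [this, Set.ncard_image_of_injOn, Set.ncard_coe_finset, Finset.card_range]
  intro a ha b hb hab
  simp only [Finset.coe_range, Set.mem_Iio] at ha hb
  exact natCast_inj (by nlinarith) (by nlinarith) hab

lemma ncard_setB (k : ℕ) : (setB k).ncard = k := by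
  have : setB k = (fun j : ℕ => (((j + 1) * k : ℕ) : ZMod (2 * k ^ 2 + 1))) ''
      (Finset.range k : Set ℕ) := by
    ext x
    simp only [setB, Set.mem_setOf_eq, Set.mem_image, Finset.coe_range, Set.mem_Iio]
    constructor
    · rintro ⟨i, hi, rfl⟩
      exact ⟨i, hi, rfl⟩
    · rintro ⟨i, hi, rfl⟩
      exact ⟨i, hi, rfl⟩
  rw [this, Set.ncard_image_of_injOn, Set.ncard_coe_finset, Finset.card_range]
  intro a ha b hb hab
  simp only [Finset.coe_range, Set.mem_Iio] at ha hb
  have h := natCast_inj (jk_lt ha) (jk_lt hb) hab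
  have hk : 0 < k := by omega
  have := Nat.eq_of_mul_eq_mul_right hk h
  omega

/-- The bipartite oriented graph of translates of the pair `(setA k, setB k)`. -/
def blockGraph (k : ℕ) : OrientedGraph (ZMod (2 * k ^ 2 + 1) ⊕ ZMod (2 * k ^ 2 + 1)) where
  arc u v := match u, v with
    | Sum.inl x, Sum.inr w => x - w ∈ setA k
    | Sum.inr w, Sum.inl x => x - w ∈ setB k
    | _, _ => False
  asymm u v := by
    rcases u with x | w <;> rcases v with y | w' <;> simp only [not_false_eq_true, imp_self,
      IsEmpty.forall_iff]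
    · intro h1 h2
      exact disj k _ h1 h2
    · intro h1 h2
      exact disj k _ h2 h1

lemma join_pos (k : ℕ) (x y : ZMod (2 * k ^ 2 + 1)) (d : ℕ) (hd0 : 0 < d) (hd : d ≤ k ^ 2)
    (h : y - x = (d : ZMod _)) :
    ∃ w, (blockGraph k).arc (Sum.inl x) w ∧ (blockGraph k).arc w (Sum.inl y) := by
  have hk : 0 < k := by
    rcases Nat.eq_zero_or_pos k with rfl | h
    · simp at hd; omega
    · exact h
  obtain ⟨e, rfl⟩ : ∃ e, d = e + 1 := ⟨d - 1, by omega⟩
  set j := e / k with hj
  set r := e % k with hr
  have her : e = j * k + r := by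
    rw [hj, hr]
    exact (Nat.div_add_mod' e k).symm
  have hrk : r < k := Nat.mod_lt _ hk
  have hjk : j < k := by
    rw [hj]
    exact Nat.div_lt_of_lt_mul (by nlinarith)
  set i := k - 1 - r with hi
  have hik : i < k := by omega
  have hsum : e + 1 + i = (j + 1) * k := by
    have : (j + 1) * k = j * k + k := by ring
    omega
  refine ⟨Sum.inr (x - (i : ZMod _)), ?_, ?_⟩
  · show x - (x - (i : ZMod _)) ∈ setA k
    exact ⟨i, hik, by ring⟩
  · show y - (x - (i : ZMod _)) ∈ setB k
    refine ⟨j, hjk, ?_⟩
    rw [← hsum]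
    push_cast at h ⊢
    linear_combination h

/-- **Main theorem.** For every `k` there is a finite oriented graph all of whose in- and
outdegrees are exactly `k` and whose oriented `L(2,1)`-labeling number is at least `2k²`. -/
theorem result (k : ℕ) : ∃ (V : Type) (_ : Fintype V) (G : OrientedGraph V),
    (∀ v, G.outdeg v = k) ∧ (∀ v, G.indeg v = k) ∧ 2 * k ^ 2 ≤ G.lambda21 := by
  classical
  have hN : NeZero (2 * k ^ 2 + 1) := ⟨by omega⟩
  refine ⟨ZMod (2 * k ^ 2 + 1) ⊕ ZMod (2 * k ^ 2 + 1), inferInstance, blockGraph k, ?_, ?_, ?_⟩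
  · rintro (x | w)
    · have : {v | (blockGraph k).arc (Sum.inl x) v} =
          (fun a => (Sum.inr (x - a) : ZMod (2 * k ^ 2 + 1) ⊕ ZMod (2 * k ^ 2 + 1))) ''
            setA k := by
        ext v
        rcases v with y | w
        · simp [blockGraph]
        · simp only [blockGraph, Set.mem_setOf_eq, Set.mem_image, Sum.inr.injEq]
          constructor
          · intro h
            exact ⟨x - w, h, by ring⟩
          · rintro ⟨a, ha, rfl⟩
            simpa using ha
      rw [OrientedGraph.outdeg, this, Set.ncard_image_of_injective, ncard_setA]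
      intro a b hab
      simpa using hab
    · have : {v | (blockGraph k).arc (Sum.inr w) v} =
          (fun a => (Sum.inl (w + a) : ZMod (2 * k ^ 2 + 1) ⊕ ZMod (2 * k ^ 2 + 1))) ''
            setB k := by
        ext v
        rcases v with y | w'
        · simp only [blockGraph, Set.mem_setOf_eq, Set.mem_image, Sum.inl.injEq]
          constructor
          · intro h
            exact ⟨y - w, h, by ring⟩
          · rintro ⟨a, ha, rfl⟩
            simpa using ha
        · simp [blockGraph]
      rw [OrientedGraph.outdeg, this, Set.ncard_image_of_injective, ncard_setB]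
      intro a b hab
      simpa using hab
  · rintro (x | w)
    · have : {v | (blockGraph k).arc v (Sum.inl x)} =
          (fun a => (Sum.inr (x - a) : ZMod (2 * k ^ 2 + 1) ⊕ ZMod (2 * k ^ 2 + 1))) ''
            setB k := by
        ext v
        rcases v with y | w
        · simp [blockGraph]
        · simp only [blockGraph, Set.mem_setOf_eq, Set.mem_image, Sum.inr.injEq]
          constructor
          · intro h
            exact ⟨x - w, h, by ring⟩
          · rintro ⟨a, ha, rfl⟩
            simpa using ha
      rw [OrientedGraph.indeg, this, Set.ncard_image_of_injective, ncard_setB]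
      intro a b hab
      simpa using hab
    · have : {v | (blockGraph k).arc v (Sum.inr w)} =
          (fun a => (Sum.inl (w + a) : ZMod (2 * k ^ 2 + 1) ⊕ ZMod (2 * k ^ 2 + 1))) ''
            setA k := by
        ext v
        rcases v with y | w'
        · simp only [blockGraph, Set.mem_setOf_eq, Set.mem_image, Sum.inl.injEq]
          constructor
          · intro h
            exact ⟨y - w, h, by ring⟩
          · rintro ⟨a, ha, rfl⟩
            simpa using ha
        · simp [blockGraph]
      rw [OrientedGraph.indeg, this, Set.ncard_image_of_injective, ncard_setA]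
      intro a b hab
      simpa using hab
  · have key := card_le_lambda21 (blockGraph k) (ι := ZMod (2 * k ^ 2 + 1)) Sum.inl (by
      intro x y hxy
      set d := (y - x).val with hd
      have hdlt : d < 2 * k ^ 2 + 1 := ZMod.val_lt _
      have hcast : ((d : ℕ) : ZMod (2 * k ^ 2 + 1)) = y - x := by
        rw [hd]
        exact ZMod.natCast_zmod_val _
      have hd0 : 0 < d := by
        rcases Nat.eq_zero_or_pos d with h | h
        · exfalso
          rw [h] at hcast
          apply hxy
          have : y - x = 0 := by rw [← hcast]; simp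
          exact (sub_eq_zero.mp this).symm
        · exact h
      by_cases hle : d ≤ k ^ 2
      · obtain ⟨w, h1, h2⟩ := join_pos k x y d hd0 hle hcast.symm
        exact ⟨w, Or.inl ⟨h1, h2⟩⟩
      · have h3 : x - y = ((2 * k ^ 2 + 1 - d : ℕ) : ZMod (2 * k ^ 2 + 1)) := by
          rw [Nat.cast_sub hdlt.le, hcast]
          have : ((2 * k ^ 2 + 1 : ℕ) : ZMod (2 * k ^ 2 + 1)) = 0 := ZMod.natCast_self _
          rw [this]
          ring
        obtain ⟨w, h1, h2⟩ := join_pos k y x (2 * k ^ 2 + 1 - d) (by omega) (by omega) h3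
        exact ⟨w, Or.inr ⟨h1, h2⟩⟩)
    rw [ZMod.card] at key
    omega

end Pool.Agent.Results.MP_fff0e1_co.ExtremalOriented
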